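import Pool.Agent.Helper10.Qc.Stmts

set_option autoImplicit false

/-! Module H2: a second inequality for reduced points. -/

namespace Pool.Agent.Helper10.Qc

open Pool.Agent.Helper19.Qh Pool.Agent.Helper19.Qc

/-- rounding to the two nearest integers -/
theorem h2_round (t : ℝ) : ∃ m m' : ℤ, ∃ e : ℝ, (m' = m + 1 ∨ m' = m - 1) ∧ 0 ≤ e ∧ e ≤ 1 / 2 ∧
    (t - m) ^ 2 = e ^ 2 ∧ (t - m') ^ 2 = (1 - e) ^ 2 := by
  have h1 := Int.floor_le t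
  have h2 := Int.lt_floor_add_one t
  rcases le_total (t - ⌊t⌋) (1 / 2) with h | h
  · refine ⟨⌊t⌋, ⌊t⌋ + 1, t - ⌊t⌋, Or.inl rfl, by linarith, h, rfl, ?_⟩
    push_cast
    ring
  · refine ⟨⌊t⌋ + 1, ⌊t⌋, ⌊t⌋ + 1 - t, Or.inr (by ring), by linarith, by linarith, ?_, ?_⟩
    · push_cast
      ring
    · ring

/-- the covering radius of `D3 / 2` -/
theorem h2_cover (c1 c2 c3 : ℝ) : ∃ m1 m2 m3 : ℤ, (2 : ℤ) ∣ m1 + m2 + m3 ∧
    (c1 - m1 / 2) ^ 2 + (c2 - m2 / 2) ^ 2 + (c3 - m3 / 2) ^ 2 ≤ 1 / 4 := by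
  obtain ⟨a, a', e, ha, e0, e1, e2, e3⟩ := h2_round (2 * c1)
  obtain ⟨b, b', f, hb, f0, f1, f2, f3⟩ := h2_round (2 * c2)
  obtain ⟨c, c', g, hc, g0, g1, g2, g3⟩ := h2_round (2 * c3)
  by_cases hev : (2 : ℤ) ∣ a + b + c
  · exact ⟨a, b, c, hev, by nlinarith⟩
  · rcases le_total f e with h1 | h1
    · rcases le_total g e with h2 | h2
      · refine ⟨a', b, c, by omega, ?_⟩
        nlinarith [mul_nonneg e0 (by linarith : 0 ≤ 2 - 3 * e), mul_nonneg f0 (by linarith : 0 ≤ e - f),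
          mul_nonneg e0 (by linarith : 0 ≤ e - f), mul_nonneg g0 (by linarith : 0 ≤ e - g),
          mul_nonneg e0 (by linarith : 0 ≤ e - g)]
      · have h3 : f ≤ g := h1.trans h2
        refine ⟨a, b, c', by omega, ?_⟩
        nlinarith [mul_nonneg g0 (by linarith : 0 ≤ 2 - 3 * g), mul_nonneg f0 (by linarith : 0 ≤ g - f),
          mul_nonneg g0 (by linarith : 0 ≤ g - f), mul_nonneg e0 (by linarith : 0 ≤ g - e),
          mul_nonneg g0 (by linarith : 0 ≤ g - e)]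
    · rcases le_total g f with h2 | h2
      · refine ⟨a, b', c, by omega, ?_⟩
        nlinarith [mul_nonneg f0 (by linarith : 0 ≤ 2 - 3 * f), mul_nonneg e0 (by linarith : 0 ≤ f - e),
          mul_nonneg f0 (by linarith : 0 ≤ f - e), mul_nonneg g0 (by linarith : 0 ≤ f - g),
          mul_nonneg f0 (by linarith : 0 ≤ f - g)]
      · have h3 : e ≤ g := h1.trans h2
        refine ⟨a, b, c', by omega, ?_⟩
        nlinarith [mul_nonneg g0 (by linarith : 0 ≤ 2 - 3 * g), mul_nonneg f0 (by linarith : 0 ≤ g - f),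
          mul_nonneg g0 (by linarith : 0 ≤ g - f), mul_nonneg e0 (by linarith : 0 ≤ g - e),
          mul_nonneg g0 (by linarith : 0 ≤ g - e)]

/-- the inequality for all cusp vectors of type 1, in coordinates -/
def h2_H (x0 x1 x2 x3 z1 z2 z3 h : ℝ) : Prop :=
  ∀ B0 B1 B2 B3 N A1 A2 A3 : ℤ, (2 : ℤ) ∣ B1 - B0 → (2 : ℤ) ∣ B2 - B0 → (2 : ℤ) ∣ B3 - B0 →
    4 * N = B0 ^ 2 + B1 ^ 2 + B2 ^ 2 + B3 ^ 2 → (2 : ℤ) ∣ A1 + N → (2 : ℤ) ∣ A2 + N →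
    (2 : ℤ) ∣ A3 + N →
    1 ≤ (h + (x0 - B0 / 2) ^ 2 + (x1 - B1 / 2) ^ 2 + (x2 - B2 / 2) ^ 2 + (x3 - B3 / 2) ^ 2) ^ 2 / 4 +
      (z1 + (-x0 * (B1 / 2) + x1 * (B0 / 2) - x2 * (B3 / 2) + x3 * (B2 / 2)) - A1 / 2) ^ 2 +
      (z2 + (-x0 * (B2 / 2) + x1 * (B3 / 2) + x2 * (B0 / 2) - x3 * (B1 / 2)) - A2 / 2) ^ 2 +
      (z3 + (-x0 * (B3 / 2) - x1 * (B2 / 2) + x2 * (B1 / 2) + x3 * (B0 / 2)) - A3 / 2) ^ 2

theorem h2_swap (x0 x1 x2 x3 z1 z2 z3 h : ℝ) (H : h2_H x0 x1 x2 x3 z1 z2 z3 h) :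
    h2_H x0 x2 x1 (-x3) z2 z1 (-z3) h := by
  intro B0 B1 B2 B3 N A1 A2 A3 b1 b2 b3 hN a1 a2 a3
  have := H B0 B2 B1 (-B3) N A2 A1 (-A3) b2 b1 (by omega) (by rw [hN]; ring) a2 a1 (by omega)
  push_cast at this
  linarith

theorem h2_core (x0 x1 x2 x3 z1 z2 z3 h : ℝ) (hh : 0 < h) (H : h2_H x0 x1 x2 x3 z1 z2 z3 h)
    (d1 : x0 ≤ 1 / 2) (d2 : |x1| + |x2| + |x3| ≤ x0) (d3 : |x3| ≤ x1) (d4 : |x3| ≤ x2) (d5 : x2 ≤ x1) :
    2 + 2 * (x0 ^ 2 + x1 ^ 2 + x2 ^ 2 + x3 ^ 2) ≤ (h + 1 - (x0 ^ 2 + x1 ^ 2 + x2 ^ 2 + x3 ^ 2)) ^ 2 := by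
  have a3 := abs_nonneg x3
  have hx1 : 0 ≤ x1 := a3.trans d3
  have hx2 : 0 ≤ x2 := a3.trans d4
  rw [abs_of_nonneg hx1, abs_of_nonneg hx2] at d2
  have hx0 : 0 ≤ x0 := by linarith
  -- the norm
  have hq : 2 * (x0 ^ 2 + x1 ^ 2 + x2 ^ 2 + x3 ^ 2) ≤ x0 + x1 := by
    have b0 : 2 * x0 ^ 2 ≤ x0 := by nlinarith
    have b1 : x3 ^ 2 ≤ x1 * |x3| := by
      rw [← sq_abs x3]
      nlinarith
    have b2 : x2 ^ 2 ≤ x1 * x2 := by nlinarith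
    have b3 : x1 * (x1 + x2 + |x3|) ≤ x1 * x0 := mul_le_mul_of_nonneg_left d2 hx1
    have b4 : x1 * x0 ≤ x1 * (1 / 2) := mul_le_mul_of_nonneg_left d1 hx1
    nlinarith
  obtain ⟨m1, m2, m3, hm, hc⟩ := h2_cover
    (z1 + (-(x0 - 1 / 2) * (1 / 2) + (x1 - 1 / 2) * (1 / 2)))
    (z2 + (x2 * (1 / 2) - x3 * (1 / 2)))
    (z3 + (x2 * (1 / 2) + x3 * (1 / 2)))
  -- it is enough to bound the average
  have main : ∀ c : ℝ, c ≤ 1 / 4 →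
      1 ≤ (h + ((x0 - 1 / 2) ^ 2 + (x1 - 1 / 2) ^ 2 + x2 ^ 2 + x3 ^ 2) + 1 / 2) ^ 2 / 4 +
        ((x0 - 1 / 2) ^ 2 + (x1 - 1 / 2) ^ 2 + x2 ^ 2 + x3 ^ 2) / 2 + c →
      2 + 2 * (x0 ^ 2 + x1 ^ 2 + x2 ^ 2 + x3 ^ 2) ≤
        (h + 1 - (x0 ^ 2 + x1 ^ 2 + x2 ^ 2 + x3 ^ 2)) ^ 2 := by
    intro c hc1 hc2
    obtain ⟨E, hE⟩ : ∃ E, E = (x0 - 1 / 2) ^ 2 + (x1 - 1 / 2) ^ 2 + x2 ^ 2 + x3 ^ 2 := ⟨_, rfl⟩
    obtain ⟨q, hqe⟩ : ∃ q, q = x0 ^ 2 + x1 ^ 2 + x2 ^ 2 + x3 ^ 2 := ⟨_, rfl⟩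
    have hE0 : 0 ≤ E := by rw [hE]; positivity
    have hE1 : E ≤ 1 / 2 - q := by
      rw [hE, hqe]
      nlinarith
    rw [← hE] at hc2
    rw [← hqe]
    have h4 : (h + E + 1 / 2) ^ 2 ≤ (h + 1 - q) ^ 2 := by
      apply pow_le_pow_left₀ (by linarith)
      linarith
    linarith
  refine main _ hc ?_
  -- parity cases
  rcases Int.emod_two_eq_zero_or_one m1 with p1 | p1
  · rcases Int.emod_two_eq_zero_or_one m2 with p2 | p2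
    · -- v = d
      have u1 := H 2 2 0 0 2 m1 m2 m3 (by norm_num) (by norm_num) (by norm_num) (by norm_num)
        (by omega) (by omega) (by omega)
      have u2 := H 0 0 0 0 0 m1 m2 m3 (by norm_num) (by norm_num) (by norm_num) (by norm_num)
        (by omega) (by omega) (by omega)
      push_cast at u1 u2
      linarith
    · -- v = (1 - i) / 2
      have u1 := H 2 0 0 0 1 (m1 + 1) m2 m3 (by norm_num) (by norm_num) (by norm_num) (by norm_num)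
        (by omega) (by omega) (by omega)
      have u2 := H 0 2 0 0 1 (m1 - 1) m2 m3 (by norm_num) (by norm_num) (by norm_num) (by norm_num)
        (by omega) (by omega) (by omega)
      push_cast at u1 u2
      linarith
  · rcases Int.emod_two_eq_zero_or_one m2 with p2 | p2
    · -- v = (j - k) / 2
      have u1 := H 1 1 1 (-1) 1 m1 (m2 - 1) m3 (by norm_num) (by norm_num) (by norm_num)
        (by norm_num) (by omega) (by omega) (by omega)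
      have u2 := H 1 1 (-1) 1 1 m1 (m2 + 1) m3 (by norm_num) (by norm_num) (by norm_num)
        (by norm_num) (by omega) (by omega) (by omega)
      push_cast at u1 u2
      linarith
    · -- v = (j + k) / 2
      have u1 := H 1 1 1 1 1 m1 m2 (m3 - 1) (by norm_num) (by norm_num) (by norm_num)
        (by norm_num) (by omega) (by omega) (by omega)
      have u2 := H 1 1 (-1) (-1) 1 m1 m2 (m3 + 1) (by norm_num) (by norm_num) (by norm_num)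
        (by norm_num) (by omega) (by omega) (by omega)
      push_cast at u1 u2
      linarith

theorem h2_top (h1 : ST_OT) (h2 : ST_HZ) (p : Pt 1) (hp : Top p) :
    h2_H (p.2 0).re (p.2 0).imI (p.2 0).imJ (p.2 0).imK p.1.imI p.1.imJ p.1.imK (hgt p) := by
  intro B0 B1 B2 B3 N A1 A2 A3 b1 b2 b3 hN a1 a2 a3
  obtain ⟨hsd, hw⟩ := hp
  have hh : 0 < hgt p := hsd
  have ha : hf ![-N, A1, A2, A3] ∈ HO := (h2 _).2 ⟨_, by
    show (2 : ℤ) ∣ A1 - -N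
    omega, by
    show (2 : ℤ) ∣ A2 - -N
    omega, by
    show (2 : ℤ) ∣ A3 - -N
    omega, rfl⟩
  have hb : hf ![B0, B1, B2, B3] ∈ HO := (h2 _).2 ⟨_, b1, b2, b3, rfl⟩
  have hNr : 4 * (N : ℝ) = (B0 : ℝ) ^ 2 + (B1 : ℝ) ^ 2 + (B2 : ℝ) ^ 2 + (B3 : ℝ) ^ 2 := by
    exact_mod_cast hN
  have hbn : ‖hf ![B0, B1, B2, B3]‖ ^ 2 = N := by
    rw [q_norm_sq]
    show ((B0 : ℝ) / 2) ^ 2 + ((B1 : ℝ) / 2) ^ 2 + ((B2 : ℝ) / 2) ^ 2 + ((B3 : ℝ) / 2) ^ 2 = N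
    linarith
  have hNO : NO (hf ![-N, A1, A2, A3]) (e1 (hf ![B0, B1, B2, B3])) := by
    refine ⟨ha, hb, ?_⟩
    rw [e1_norm, hbn]
    show 2 * (((-N : ℤ) : ℝ) / 2) + (N : ℝ) = 0
    push_cast
    ring
  have h3 := hw _ (h1 _ _ hNO)
  unfold uval at h3
  rw [div_le_div_iff_of_pos_right hh] at h3
  have h4 : herm (vec p) ((hf ![-N, A1, A2, A3], e1 (hf ![B0, B1, B2, B3]), 1) : V 1) =
      p.1 + p.2 0 * star (hf ![B0, B1, B2, B3]) + star (hf ![-N, A1, A2, A3]) := by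
    unfold herm vec
    rw [hin1, e1_apply]
    simp
  rw [h4, q_norm_sq] at h3
  have hgt' : hgt p = -(2 * p.1.re + ((p.2 0).re ^ 2 + (p.2 0).imI ^ 2 + (p.2 0).imJ ^ 2 + (p.2 0).imK ^ 2)) := by
    unfold hgt
    rw [norm_E1, q_norm_sq]
  simp only [Quaternion.re_add, Quaternion.imI_add, Quaternion.imJ_add, Quaternion.imK_add,
    Quaternion.re_mul, Quaternion.imI_mul, Quaternion.imJ_mul, Quaternion.imK_mul,
    Quaternion.re_star, Quaternion.imI_star, Quaternion.imJ_star, Quaternion.imK_star] at h3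
  have e0 : (hf ![B0, B1, B2, B3]).re = (B0 : ℝ) / 2 := rfl
  have e1' : (hf ![B0, B1, B2, B3]).imI = (B1 : ℝ) / 2 := rfl
  have e2 : (hf ![B0, B1, B2, B3]).imJ = (B2 : ℝ) / 2 := rfl
  have e3 : (hf ![B0, B1, B2, B3]).imK = (B3 : ℝ) / 2 := rfl
  have f0 : (hf ![-N, A1, A2, A3]).re = ((-N : ℤ) : ℝ) / 2 := rfl
  have f1 : (hf ![-N, A1, A2, A3]).imI = (A1 : ℝ) / 2 := rfl
  have f2 : (hf ![-N, A1, A2, A3]).imJ = (A2 : ℝ) / 2 := rfl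
  have f3 : (hf ![-N, A1, A2, A3]).imK = (A3 : ℝ) / 2 := rfl
  rw [e0, e1', e2, e3, f0, f1, f2, f3] at h3
  refine h3.trans (le_of_eq ?_)
  have hz : p.1.re = -(hgt p + ((p.2 0).re ^ 2 + (p.2 0).imI ^ 2 + (p.2 0).imJ ^ 2 + (p.2 0).imK ^ 2)) / 2 := by
    rw [hgt']; ring
  have hNr' : (N : ℝ) = ((B0 : ℝ) ^ 2 + (B1 : ℝ) ^ 2 + (B2 : ℝ) ^ 2 + (B3 : ℝ) ^ 2) / 4 := by linarith
  rw [hz]
  push_cast
  rw [hNr']
  ring

theorem st_H2 (h1 : ST_OT) (h2 : ST_HZ) : ST_H2 := by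
  intro p hp hd
  have H := h2_top h1 h2 p hp
  obtain ⟨d1, d2, d3, d4⟩ := hd
  have hh : 0 < hgt p := hp.1
  rw [q_norm_sq]
  rcases le_total (p.2 0).imJ (p.2 0).imI with h | h
  · exact h2_core _ _ _ _ _ _ _ _ hh H d1 d2 d3 d4 h
  · have := h2_core _ _ _ _ _ _ _ _ hh (h2_swap _ _ _ _ _ _ _ _ H) d1 (by rw [abs_neg]; linarith)
      (by rw [abs_neg]; exact d4) (by rw [abs_neg]; exact d3) h
    have e : (p.2 0).re ^ 2 + (p.2 0).imJ ^ 2 + (p.2 0).imI ^ 2 + (-(p.2 0).imK) ^ 2 =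
        (p.2 0).re ^ 2 + (p.2 0).imI ^ 2 + (p.2 0).imJ ^ 2 + (p.2 0).imK ^ 2 := by ring
    rw [e] at this
    exact this

end Pool.Agent.Helper10.Qc
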